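import Pool.Agent.Helper30.LK.St

/-!
# Project LK (MP_2d2425_nt), module FN2: Chinese remainder theorem and sizes
-/

set_option autoImplicit false

noncomputable section

namespace Pool.Agent.Helper88.LK

open Finset ArithmeticFunction Filter
open Pool.Agent.Helper30.LK
open Pool.Agent.Helper18.TR (StFL)
open Pool.Agent.Helper15.AB (StMT)
open Pool.Agent.Helper48.BK (StSW th)
open Pool.Agent.Helper30.PB (StPRP StPIP)

/-- the odd primes up to `x` -/
private def Od (x : ℕ) : Finset ℕ := (Icc 1 x).filter (fun l => l.Prime ∧ l ≠ 2)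

private theorem mem_Od (x l : ℕ) : l ∈ Od x ↔ l.Prime ∧ l ≠ 2 ∧ l ≤ x := by
  unfold Od
  rw [mem_filter, mem_Icc]
  constructor
  · rintro ⟨⟨_, h2⟩, h3, h4⟩
    exact ⟨h3, h4, h2⟩
  · rintro ⟨h3, h4, h2⟩
    exact ⟨⟨h3.one_lt.le, h2⟩, h3, h4⟩

private theorem crt (x : ℕ) (r : ℕ → ℕ) : ∃ n : ℕ, ∏ l ∈ Od x, l ≤ n ∧ n < 2 * ∏ l ∈ Od x, l ∧
    ∀ l : ℕ, l.Prime → l ≠ 2 → l ≤ x → l ∣ 2 * n + r l := by
  classical
  have hs : ∀ i ∈ Od x, (id i : ℕ) ≠ 0 := fun i hi => ((mem_Od x i).1 hi).1.ne_zero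
  have pp : Set.Pairwise (↑(Od x)) (Function.onFun Nat.Coprime (id : ℕ → ℕ)) := by
    intro a ha b hb hab
    exact (Nat.coprime_primes ((mem_Od x a).1 (Finset.mem_coe.1 ha)).1
      ((mem_Od x b).1 (Finset.mem_coe.1 hb)).1).2 hab
  obtain ⟨k, hk⟩ := Nat.chineseRemainderOfFinset (fun l => (l - 1) / 2 * r l) id (Od x) hs pp
  have hP : 0 < ∏ l ∈ Od x, l := Finset.prod_pos fun i hi => ((mem_Od x i).1 hi).1.pos
  refine ⟨k % (∏ l ∈ Od x, l) + ∏ l ∈ Od x, l, Nat.le_add_left _ _, ?_, ?_⟩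
  · have := Nat.mod_lt k hP
    omega
  · intro l hl h2 hlx
    have hm : l ∈ Od x := (mem_Od x l).2 ⟨hl, h2, hlx⟩
    have hd : l ∣ ∏ l ∈ Od x, l := Finset.dvd_prod_of_mem _ hm
    have h1 : k % (∏ l ∈ Od x, l) + ∏ l ∈ Od x, l ≡ k [MOD l] := by
      have e1 : k % (∏ l ∈ Od x, l) ≡ k [MOD l] := (Nat.mod_modEq k _).of_dvd hd
      have e2 : ∏ l ∈ Od x, l ≡ 0 [MOD l] := (Nat.modEq_zero_iff_dvd).2 hd
      simpa using e1.add e2
    have h3 : k ≡ (l - 1) / 2 * r l [MOD l] := hk l hm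
    have h4 : 2 * (k % (∏ l ∈ Od x, l) + ∏ l ∈ Od x, l) + r l ≡
        2 * ((l - 1) / 2 * r l) + r l [MOD l] :=
      ((h1.trans h3).mul_left 2).add_right (r l)
    have hodd : Odd l := hl.odd_of_ne_two h2
    obtain ⟨t, ht⟩ := hodd
    have h5 : 2 * ((l - 1) / 2 * r l) + r l = l * r l := by
      have : (l - 1) / 2 = t := by omega
      rw [this, ht]
      ring
    rw [h5] at h4
    exact (Nat.modEq_zero_iff_dvd).1 (h4.trans ((Nat.modEq_zero_iff_dvd).2 (dvd_mul_right l _)))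

private theorem Od_le (x : ℕ) : ∏ l ∈ Od x, l ≤ 4 ^ x := by
  refine le_trans ?_ (primorial_le_four_pow x)
  unfold primorial
  apply Finset.prod_le_prod_of_subset_of_one_le'
  · intro l hl
    obtain ⟨h1, _, h3⟩ := (mem_Od x l).1 hl
    rw [mem_filter, mem_range]
    exact ⟨by omega, h1⟩
  · intro l hl _
    rw [mem_filter] at hl
    exact hl.2.one_lt.le

private theorem Od_ge (x : ℕ) (hx : 4 ≤ x) (S : Finset ℕ)
    (hS : ∀ l ∈ S, l.Prime ∧ x / 2 < l ∧ l ≤ x) :
    (S.card : ℝ) * Real.log ((x : ℝ) / 2) ≤ Real.log ((∏ l ∈ Od x, l : ℕ) : ℝ) := by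
  have hsub : S ⊆ Od x := by
    intro l hl
    obtain ⟨h1, h2, h3⟩ := hS l hl
    rw [mem_Od]
    exact ⟨h1, by omega, h3⟩
  rw [Nat.cast_prod, Real.log_prod]
  · calc (S.card : ℝ) * Real.log ((x : ℝ) / 2) = ∑ _l ∈ S, Real.log ((x : ℝ) / 2) := by
          rw [Finset.sum_const, nsmul_eq_mul]
      _ ≤ ∑ l ∈ S, Real.log (l : ℝ) := by
          apply Finset.sum_le_sum
          intro l hl
          obtain ⟨h1, h2, h3⟩ := hS l hl
          apply Real.log_le_log
          · have : (4 : ℝ) ≤ x := by exact_mod_cast hx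
            linarith
          · have h4 : x ≤ 2 * l := by omega
            have h5 : (x : ℝ) ≤ 2 * l := by exact_mod_cast h4
            linarith
      _ ≤ ∑ l ∈ Od x, Real.log (l : ℝ) := by
          apply Finset.sum_le_sum_of_subset_of_nonneg hsub
          intro l _ _
          exact Real.log_natCast_nonneg l
  · intro l hl
    have := ((mem_Od x l).1 hl).1.ne_zero
    exact_mod_cast this

/-- all conditions on `x` hold for large `x` -/
private theorem large (c₁ : ℝ) (hc : 0 < c₁) (a b : ℕ) : ∃ x : ℕ, a ≤ x ∧ b ≤ x ∧ 6 ≤ x ∧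
    1 ≤ c₁ * Real.log x ∧ 2 * Real.log 32 ≤ Real.log x ∧ 2 ≤ Real.log (Real.log x) ∧
    Real.log x ^ 2 ≤ (x : ℝ) ^ (1 / 4 : ℝ) ∧ Real.log x + 1 ≤ (x : ℝ) / 32 := by
  have hlog : Tendsto (fun x : ℕ => Real.log (x : ℝ)) atTop atTop :=
    Real.tendsto_log_atTop.comp tendsto_natCast_atTop_atTop
  have hll : Tendsto (fun x : ℕ => Real.log (Real.log (x : ℝ))) atTop atTop :=
    Real.tendsto_log_atTop.comp hlog
  have e1 : ∀ᶠ x : ℕ in atTop, a ≤ x := eventually_ge_atTop a
  have e2 : ∀ᶠ x : ℕ in atTop, b ≤ x := eventually_ge_atTop b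
  have e3 : ∀ᶠ x : ℕ in atTop, 6 ≤ x := eventually_ge_atTop 6
  have e4 : ∀ᶠ x : ℕ in atTop, 1 / c₁ ≤ Real.log x := hlog.eventually_ge_atTop _
  have e5 : ∀ᶠ x : ℕ in atTop, 2 * Real.log 32 ≤ Real.log x := hlog.eventually_ge_atTop _
  have e6 : ∀ᶠ x : ℕ in atTop, 2 ≤ Real.log (Real.log x) := hll.eventually_ge_atTop _
  have e7 : ∀ᶠ x : ℕ in atTop, Real.log x ^ 2 ≤ (x : ℝ) ^ (1 / 4 : ℝ) := by
    have h := (isLittleO_log_rpow_atTop (r := 1 / 8) (by norm_num)).bound (c := 1) one_pos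
    have h' := tendsto_natCast_atTop_atTop (R := ℝ) |>.eventually h
    filter_upwards [h', e3] with x hx h6
    have hx0 : (0 : ℝ) ≤ x := Nat.cast_nonneg x
    rw [one_mul, Real.norm_eq_abs, Real.norm_eq_abs,
      abs_of_nonneg (Real.log_natCast_nonneg x), abs_of_nonneg (Real.rpow_nonneg hx0 _)] at hx
    calc Real.log x ^ 2 ≤ ((x : ℝ) ^ (1 / 8 : ℝ)) ^ 2 :=
          pow_le_pow_left₀ (Real.log_natCast_nonneg x) hx 2
      _ = (x : ℝ) ^ (1 / 4 : ℝ) := by
          rw [← Real.rpow_natCast, ← Real.rpow_mul hx0]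
          norm_num
  have e8 : ∀ᶠ x : ℕ in atTop, Real.log x + 1 ≤ (x : ℝ) / 32 := by
    have h := (Real.isLittleO_log_id_atTop).bound (c := 1 / 64) (by norm_num)
    have h' := tendsto_natCast_atTop_atTop (R := ℝ) |>.eventually h
    filter_upwards [h', eventually_ge_atTop 64] with x hx h64
    have hx0 : (0 : ℝ) ≤ x := Nat.cast_nonneg x
    rw [Real.norm_eq_abs, Real.norm_eq_abs, abs_of_nonneg (Real.log_natCast_nonneg x)] at hx
    simp only [id] at hx
    rw [abs_of_nonneg hx0] at hx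
    have h65 : (64 : ℝ) ≤ x := by exact_mod_cast h64
    linarith
  obtain ⟨x, h1, h2, h3, h4, h5, h6, h7, h8⟩ :=
    (e1.and (e2.and (e3.and (e4.and (e5.and (e6.and (e7.and e8))))))).exists
  refine ⟨x, h1, h2, h3, ?_, h5, h6, h7, h8⟩
  rw [div_le_iff₀ hc] at h4
  linarith

theorem hFN2 (hS : StSUR) (hP : StPIP) (hO : StODD) (hV : StDVQ) : StFN2 := by
  classical
  obtain ⟨C, hC, x₀, hSur⟩ := hS
  obtain ⟨Y₀, hPr⟩ := hP 1 le_rfl
  set c₁ : ℝ := min 1 (1 / (32 * C)) with hc₁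
  have hc0 : 0 < c₁ := lt_min one_pos (by positivity)
  have hc1 : c₁ ≤ 1 := min_le_left _ _
  have hc2 : C * c₁ ≤ 1 / 32 := by
    have := min_le_right 1 (1 / (32 * C))
    calc C * c₁ ≤ C * (1 / (32 * C)) := mul_le_mul_of_nonneg_left this hC.le
      _ = 1 / 32 := by field_simp
  refine ⟨(c₁ / 2) ^ 2 / 256, by positivity, fun n₀ => ?_⟩
  obtain ⟨x, hx1, hx2, hx6, hx3, hx4, hx5, hx7, hx8⟩ := large c₁ hc0 (max x₀ Y₀) n₀
  have hxx0 : x₀ ≤ x := le_trans (le_max_left _ _) hx1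
  have hxY : Y₀ ≤ x := le_trans (le_max_right _ _) hx1
  set L : ℝ := Real.log x with hL
  set LL : ℝ := Real.log L with hLL
  have hx0 : (0 : ℝ) < x := by exact_mod_cast (by omega : 0 < x)
  have hLL0 : 0 < LL := by linarith
  have hL1 : 1 < L := by
    by_contra hcon
    push Not at hcon
    have h0 : 0 ≤ L := Real.log_natCast_nonneg x
    have := Real.log_nonpos h0 hcon
    linarith
  have hL0 : 0 < L := by linarith
  have hLLL : LL ≤ L := by
    have := Real.log_le_sub_one_of_pos hL0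
    linarith
  set A : ℝ := x * L ^ 2 / LL with hA
  have hA0 : 0 < A := by positivity
  set M : ℕ := ⌊c₁ * A⌋₊ with hM
  have hMle : (M : ℝ) ≤ c₁ * A := Nat.floor_le (by positivity)
  have hMlt : c₁ * A < M + 1 := Nat.lt_floor_add_one _
  have hxM : x ≤ M := by
    apply Nat.le_floor
    rw [hA, ← mul_div_assoc, le_div_iff₀ hLL0]
    calc (x : ℝ) * LL ≤ x * L := mul_le_mul_of_nonneg_left hLLL hx0.le
      _ = x * L * 1 := by ring
      _ ≤ x * L * (c₁ * L) := mul_le_mul_of_nonneg_left hx3 (by positivity)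
      _ = c₁ * (x * L ^ 2) := by ring
  have hMx : (M : ℝ) ≤ (x : ℝ) ^ (5 / 4 : ℝ) := by
    calc (M : ℝ) ≤ c₁ * A := hMle
      _ ≤ 1 * A := mul_le_mul_of_nonneg_right hc1 hA0.le
      _ = x * L ^ 2 / LL := by rw [one_mul]
      _ ≤ x * L ^ 2 := div_le_self (by positivity) (by linarith)
      _ ≤ x * (x : ℝ) ^ (1 / 4 : ℝ) := mul_le_mul_of_nonneg_left hx7 hx0.le
      _ = (x : ℝ) ^ (5 / 4 : ℝ) := by
          rw [show (5 / 4 : ℝ) = 1 + 1 / 4 by norm_num, Real.rpow_add hx0, Real.rpow_one]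
  have hcard := hSur x M hxx0 hxM hMx
  -- the primes in `(x / 2, x]`
  set S : Finset ℕ := (Ioc (x / 2) x).filter (fun P => P.Prime ∧ P % 1 = 1 % 1) with hSdef
  have hSc : (x : ℝ) / (16 * L) ≤ (S.card : ℝ) := by
    have := hPr (x / 2) x 1 hxY (by omega) (Nat.coprime_one_left 1)
    simpa using this
  have hSm : ∀ l ∈ S, l.Prime ∧ x / 2 < l ∧ l ≤ x := by
    intro l hl
    rw [hSdef, mem_filter, mem_Ioc] at hl
    exact ⟨hl.2.1, hl.1.1, hl.1.2⟩
  have hle : (Sv x M).card ≤ S.card := by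
    have h1 : ((Sv x M).card : ℝ) ≤ (x : ℝ) / (16 * L) := by
      calc ((Sv x M).card : ℝ) ≤ C * (M * LL / L ^ 3) := hcard
        _ ≤ C * (c₁ * A * LL / L ^ 3) := by gcongr
        _ = (C * c₁) * (x / L) := by
            rw [hA]
            field_simp
        _ ≤ 1 / 32 * (x / L) := mul_le_mul_of_nonneg_right hc2 (by positivity)
        _ ≤ (x : ℝ) / (16 * L) := by
            rw [div_mul_div_comm, one_mul]
            apply div_le_div_of_nonneg_left hx0.le (by positivity)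
            nlinarith
    exact_mod_cast h1.trans hSc
  obtain ⟨f, hf1, hf2⟩ : ∃ f : ℕ → ℕ, (∀ m ∈ Sv x M, f m ∈ S) ∧ Set.InjOn f (Sv x M) := by
    obtain ⟨g⟩ := Function.Embedding.nonempty_of_card_le
      (show Fintype.card (Sv x M) ≤ Fintype.card S by simpa using hle)
    refine ⟨fun m => if h : m ∈ Sv x M then (g ⟨m, h⟩ : ℕ) else 0, ?_, ?_⟩
    · intro m hm
      simp only [hm, dif_pos]
      exact (g ⟨m, hm⟩).2
    · intro m hm m' hm' h
      have hm1 : m ∈ Sv x M := hm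
      have hm2 : m' ∈ Sv x M := hm'
      simp only [hm1, hm2, dif_pos] at h
      have := g.injective (Subtype.ext h)
      exact congrArg Subtype.val this
  -- the residues
  let r : ℕ → ℕ := fun l => if h : ∃ m ∈ Sv x M, f m = l then sigma 1 (h.choose ^ 2) else rs x l
  have hr1 : ∀ m ∈ Sv x M, r (f m) = sigma 1 (m ^ 2) := by
    intro m hm
    have h : ∃ m' ∈ Sv x M, f m' = f m := ⟨m, hm, rfl⟩
    have e : h.choose = m := hf2 h.choose_spec.1 hm h.choose_spec.2
    simp only [r, h, dif_pos]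
    rw [e]
  have hr2 : ∀ l : ℕ, 2 * l ≤ x → r l = rs x l := by
    intro l hl
    have h : ¬ ∃ m ∈ Sv x M, f m = l := by
      rintro ⟨m, hm, rfl⟩
      have := (hSm _ (hf1 m hm)).2.1
      omega
    simp only [r, h, dif_neg, not_false_eq_true]
  obtain ⟨n, hn1, hn2, hn3⟩ := crt x r
  set P : ℕ := ∏ l ∈ Od x, l with hPdef
  have hP0 : 0 < P := Finset.prod_pos fun i hi => ((mem_Od x i).1 hi).1.pos
  have hP0' : (0 : ℝ) < P := by exact_mod_cast hP0
  have hn0 : 0 < n := lt_of_lt_of_le hP0 hn1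
  have hn0' : (0 : ℝ) < n := by exact_mod_cast hn0
  -- lower bound for `log n`
  have hlogP : (x : ℝ) / 32 ≤ Real.log P := by
    have h1 := Od_ge x (by omega) S hSm
    rw [← hPdef] at h1
    have h2 : L / 2 ≤ Real.log ((x : ℝ) / 2) := by
      rw [Real.log_div hx0.ne' two_ne_zero]
      have h3 : Real.log 2 ≤ Real.log 32 := Real.log_le_log two_pos (by norm_num)
      linarith
    calc (x : ℝ) / 32 = (x : ℝ) / (16 * L) * (L / 2) := by field_simp; norm_num
      _ ≤ (S.card : ℝ) * Real.log ((x : ℝ) / 2) :=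
          mul_le_mul hSc h2 (by positivity) (Nat.cast_nonneg _)
      _ ≤ Real.log P := h1
  have hlogn1 : (x : ℝ) / 32 ≤ Real.log n :=
    hlogP.trans (Real.log_le_log hP0' (by exact_mod_cast hn1))
  have hlogn2 : Real.log n ≤ 2 * x := by
    have h1 : (n : ℝ) ≤ 2 * 4 ^ x := by
      have : n ≤ 2 * 4 ^ x := hn2.le.trans (Nat.mul_le_mul_left 2 (Od_le x))
      exact_mod_cast this
    have h2 := Real.log_le_log hn0' h1
    rw [Real.log_mul two_ne_zero (by positivity), Real.log_pow,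
      show (4 : ℝ) = 2 ^ 2 by norm_num, Real.log_pow] at h2
    have h3 := Real.log_two_lt_d9
    have h4 : (6 : ℝ) ≤ x := by exact_mod_cast hx6
    push_cast at h2
    nlinarith
  have hxn : x < n := by
    have h1 : Real.log x < Real.log n := by
      rw [← hL]
      linarith
    have := (Real.log_lt_log_iff hx0 hn0').1 h1
    exact_mod_cast this
  refine ⟨n, by omega, ?_⟩
  intro k hk0 hk
  -- sizes
  have hln0 : 0 < Real.log n := lt_of_lt_of_le (by positivity) hlogn1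
  have hlln1 : L / 2 ≤ Real.log (Real.log n) := by
    have h1 := Real.log_le_log (by positivity : (0 : ℝ) < (x : ℝ) / 32) hlogn1
    rw [Real.log_div hx0.ne' (by norm_num), ← hL] at h1
    linarith
  have hlln2 : Real.log (Real.log n) ≤ 2 * L := by
    have h1 := Real.log_le_log hln0 hlogn2
    rw [Real.log_mul two_ne_zero hx0.ne', ← hL] at h1
    have h3 : Real.log 2 ≤ Real.log 32 := Real.log_le_log two_pos (by norm_num)
    have h4 : 0 ≤ Real.log 32 := Real.log_nonneg (by norm_num)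
    linarith
  have hllln : LL / 2 ≤ Real.log (Real.log (Real.log n)) := by
    have h1 := Real.log_le_log (by positivity : (0 : ℝ) < L / 2) hlln1
    rw [Real.log_div hL0.ne' two_ne_zero, ← hLL] at h1
    have h3 := Real.log_two_lt_d9
    linarith
  have hkA : (k : ℝ) ≤ (c₁ / 2 * A) ^ 2 := by
    have hl0 : 0 ≤ Real.log (Real.log n) := le_trans (by positivity) hlln1
    have h1 : Real.log n ^ 2 * Real.log (Real.log n) ^ 4 / Real.log (Real.log (Real.log n)) ^ 2 ≤
        (2 * x) ^ 2 * (2 * L) ^ 4 / (LL / 2) ^ 2 := by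
      gcongr
    calc (k : ℝ) ≤ (c₁ / 2) ^ 2 / 256 * (Real.log n ^ 2 * Real.log (Real.log n) ^ 4 /
          Real.log (Real.log (Real.log n)) ^ 2) := hk
      _ ≤ (c₁ / 2) ^ 2 / 256 * ((2 * x) ^ 2 * (2 * L) ^ 4 / (LL / 2) ^ 2) :=
          mul_le_mul_of_nonneg_left h1 (by positivity)
      _ = (c₁ / 2 * A) ^ 2 := by
          rw [hA]
          field_simp
          ring
  -- every prime factor `≤ x` is bad
  have key : ∀ l : ℕ, l.Prime → l ≤ x → l ∣ 2 * n + sigma 1 k → ¬ (2 * n + sigma 1 k).Prime := by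
    intro l hl hlx hd hpr
    have := (Nat.prime_dvd_prime_iff_eq hl hpr).1 hd
    omega
  rcases Nat.even_or_odd (sigma 1 k) with he | ho
  · refine key 2 Nat.prime_two (by omega) ?_
    exact (dvd_mul_right 2 n).add he.two_dvd
  · obtain ⟨m, hm1, hm | hm⟩ := hO k hk0 ho
    · have hmM : m ≤ M := by
        have h1 : ((m : ℝ)) ^ 2 ≤ (c₁ / 2 * A) ^ 2 := by
          rw [hm] at hkA
          push_cast at hkA
          exact hkA
        have h2 : (m : ℝ) ≤ c₁ / 2 * A :=
          (pow_le_pow_iff_left₀ (Nat.cast_nonneg m) (by positivity) two_ne_zero).1 h1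
        have h3 : (m : ℝ) < M + 1 := by
          have : c₁ / 2 * A ≤ c₁ * A := by nlinarith [mul_pos hc0 hA0]
          linarith
        have h4 : m < M + 1 := by exact_mod_cast h3
        omega
      by_cases hmS : m ∈ Sv x M
      · obtain ⟨h1, h2, h3⟩ := hSm _ (hf1 m hmS)
        refine key (f m) h1 h3 ?_
        have := hn3 (f m) h1 (by omega) h3
        rw [hr1 m hmS] at this
        rw [hm]
        exact this
      · unfold Sv at hmS
        rw [mem_filter] at hmS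
        have h0 : m ∈ Icc 1 M := mem_Icc.2 ⟨hm1, hmM⟩
        have h1 : ∃ l : ℕ, l.Prime ∧ l ≠ 2 ∧ 2 * l ≤ x ∧ sigma 1 (m ^ 2) ≡ rs x l [MOD l] := by
          by_contra hcon
          apply hmS
          refine ⟨h0, ?_⟩
          intro l hl hl2 hlx hc
          exact hcon ⟨l, hl, hl2, hlx, hc⟩
        obtain ⟨l, hl, hl2, hlx, hc⟩ := h1
        refine key l hl (by omega) ?_
        have h2 := hn3 l hl hl2 (by omega)
        rw [hr2 l hlx] at h2
        rw [hm]
        exact (Nat.modEq_zero_iff_dvd).1 ((hc.add_left (2 * n)).trans ((Nat.modEq_zero_iff_dvd).2 h2))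
    · refine key 3 Nat.prime_three (by omega) ?_
      have h1 := hn3 3 Nat.prime_three (by norm_num) (by omega)
      rw [hr2 3 (by omega)] at h1
      have h2 : rs x 3 = 0 := by
        unfold rs
        rw [if_neg]
        intro h
        omega
      rw [h2, add_zero] at h1
      rw [hm]
      exact h1.add (hV.2 m hm1)

end Pool.Agent.Helper88.LK
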